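import Mathlib

/-! The Taylor automorphism of `l⟦X⟧` attached to a derivation of `l⟦X⟧` killing `X` and an element
`u` of positive order: `x ↦ ∑ u ^ i D ^ i x / i!`. -/

namespace Pool.Agent.Helper49.Div

open PowerSeries

section Exp

variable {R : Type*} [CommRing R] [Algebra ℚ R]

/-- the exponential of a derivation, as a power series -/
noncomputable def expD (D : Derivation ℤ R R) (a : R) : R⟦X⟧ :=
  PowerSeries.mk (fun n => ((n.factorial : ℚ)⁻¹) • (D^[n] a))

theorem coeff_expD (D : Derivation ℤ R R) (a : R) (n : ℕ) :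
    coeff n (expD D a) = ((n.factorial : ℚ)⁻¹) • (D^[n] a) := by
  rw [expD, coeff_mk]

theorem derivative_expD (D : Derivation ℤ R R) (a : R) :
    d⁄dX R (expD D a) = expD D (D a) := by
  ext n
  rw [coeff_derivative, coeff_expD, coeff_expD, ← Function.iterate_succ_apply]
  have h1 : ((n : R) + 1) = algebraMap ℚ R ((n : ℚ) + 1) := by
    rw [map_add, map_natCast, map_one]
  rw [h1, mul_comm, ← Algebra.smul_def, smul_smul, Nat.factorial_succ]
  congr 1
  have h2 : ((n : ℚ) + 1) ≠ 0 := by exact_mod_cast Nat.succ_ne_zero n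
  have h3 : ((n.factorial : ℚ)) ≠ 0 := by exact_mod_cast n.factorial_ne_zero
  push_cast
  field_simp

theorem expD_add (D : Derivation ℤ R R) (a b : R) : expD D (a + b) = expD D a + expD D b := by
  ext n
  rw [map_add, coeff_expD, coeff_expD, coeff_expD, ← smul_add]
  congr 1
  induction n with
  | zero => rfl
  | succ n ih => rw [Function.iterate_succ_apply', Function.iterate_succ_apply',
      Function.iterate_succ_apply', ih, map_add]

theorem expD_mul (D : Derivation ℤ R R) (a b : R) : expD D (a * b) = expD D a * expD D b := by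
  ext n
  induction n generalizing a b with
  | zero =>
    rw [coeff_expD, coeff_zero_eq_constantCoeff_apply, map_mul, ← coeff_zero_eq_constantCoeff_apply,
      ← coeff_zero_eq_constantCoeff_apply, coeff_expD, coeff_expD]
    simp
  | succ n ih =>
    have key : coeff n (d⁄dX R (expD D (a * b))) = coeff n (d⁄dX R (expD D a * expD D b)) := by
      rw [derivative_expD, Derivation.leibniz, Derivation.leibniz, derivative_expD, derivative_expD,
        expD_add, map_add, smul_eq_mul, smul_eq_mul, smul_eq_mul, smul_eq_mul, ih, ih, map_add]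
    rw [coeff_derivative, coeff_derivative] at key
    have h1 : IsUnit ((n : R) + 1) := by
      have : ((n : R) + 1) = algebraMap ℚ R ((n : ℚ) + 1) := by
        rw [map_add, map_natCast, map_one]
      rw [this]
      apply IsUnit.map
      rw [isUnit_iff_ne_zero]
      exact_mod_cast Nat.succ_ne_zero n
    exact h1.mul_right_cancel key

/-- `expD` as a ring homomorphism -/
noncomputable def expHom (D : Derivation ℤ R R) : R →+* R⟦X⟧ where
  toFun := expD D
  map_one' := by
    ext n
    rw [coeff_expD, coeff_one]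
    cases n with
    | zero => simp
    | succ n =>
      rw [Function.iterate_succ_apply, D.map_one_eq_zero, if_neg (Nat.succ_ne_zero n)]
      have : D^[n] 0 = 0 := by
        induction n with
        | zero => rfl
        | succ n ih => rw [Function.iterate_succ_apply', ih, map_zero]
      rw [this, smul_zero]
  map_mul' := expD_mul D
  map_zero' := by
    ext n
    rw [coeff_expD, map_zero]
    have : D^[n] 0 = 0 := by
      induction n with
      | zero => rfl
      | succ n ih => rw [Function.iterate_succ_apply', ih, map_zero]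
    rw [this, smul_zero]
  map_add' := expD_add D

end Exp

section Eval

variable {l : Type*} [CommRing l]

/-- evaluation of a power series over `l⟦X⟧` at an element divisible by `X` -/
noncomputable def evU (u : l⟦X⟧) (F : (l⟦X⟧)⟦X⟧) : l⟦X⟧ :=
  PowerSeries.mk fun m => coeff m ((trunc (m + 1) F).eval u)

theorem eval_trunc_eq (u : l⟦X⟧) (F : (l⟦X⟧)⟦X⟧) (N : ℕ) :
    (trunc N F).eval u = ∑ i ∈ Finset.range N, coeff i F * u ^ i := by
  have := eval₂_trunc_eq_sum_range u (RingHom.id _) N F
  simpa [Polynomial.eval₂_id] using this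

theorem coeff_mul_pow_eq_zero {u : l⟦X⟧} (hu : X ∣ u) (a : l⟦X⟧) {m i : ℕ} (h : m < i) :
    coeff m (a * u ^ i) = 0 := by
  have h1 : (X : l⟦X⟧) ^ i ∣ a * u ^ i := Dvd.dvd.mul_left (pow_dvd_pow_of_dvd hu i) a
  exact X_pow_dvd_iff.1 h1 m h

theorem evU_congr {u : l⟦X⟧} (hu : X ∣ u) (F : (l⟦X⟧)⟦X⟧) (N : ℕ) :
    (X : l⟦X⟧) ^ N ∣ evU u F - (trunc N F).eval u := by
  rw [X_pow_dvd_iff]
  intro m hm
  rw [map_sub, evU, coeff_mk, eval_trunc_eq, eval_trunc_eq, sub_eq_zero, map_sum, map_sum]
  apply Finset.sum_subset (Finset.range_mono hm)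
  intro i _ hi
  rw [Finset.mem_range, not_lt] at hi
  exact coeff_mul_pow_eq_zero hu _ (by omega)

theorem eq_of_forall_dvd {x y : l⟦X⟧} (h : ∀ N : ℕ, (X : l⟦X⟧) ^ N ∣ x - y) : x = y := by
  rw [← sub_eq_zero]
  ext m
  rw [map_zero]
  exact X_pow_dvd_iff.1 (h (m + 1)) m (Nat.lt_succ_self m)

theorem eval_sub_eval_trunc {u : l⟦X⟧} (hu : X ∣ u) (P : Polynomial l⟦X⟧) (N : ℕ) :
    (X : l⟦X⟧) ^ N ∣ P.eval u - (trunc N (P : (l⟦X⟧)⟦X⟧)).eval u := by
  have h1 : (Polynomial.X : Polynomial l⟦X⟧) ^ N ∣ P - trunc N (P : (l⟦X⟧)⟦X⟧) := by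
    rw [Polynomial.X_pow_dvd_iff]
    intro d hd
    rw [Polynomial.coeff_sub, coeff_trunc, if_pos hd, Polynomial.coeff_coe, sub_self]
  obtain ⟨Q, hQ⟩ := h1
  rw [← Polynomial.eval_sub, hQ, Polynomial.eval_mul, Polynomial.eval_pow, Polynomial.eval_X]
  exact Dvd.dvd.mul_right (pow_dvd_pow_of_dvd hu N) _

/-- `evU` as a ring homomorphism -/
noncomputable def evHom (u : l⟦X⟧) (hu : X ∣ u) : (l⟦X⟧)⟦X⟧ →+* l⟦X⟧ where
  toFun := evU u
  map_one' := by
    apply eq_of_forall_dvd
    intro N
    have h := evU_congr hu 1 (N + 1)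
    rw [trunc_one, Polynomial.eval_one] at h
    exact (pow_dvd_pow X (Nat.le_succ N)).trans h
  map_zero' := by
    apply eq_of_forall_dvd
    intro N
    have h := evU_congr hu 0 N
    rwa [map_zero, Polynomial.eval_zero] at h
  map_add' := by
    intro F G
    apply eq_of_forall_dvd
    intro N
    have h1 := evU_congr hu (F + G) N
    have h2 := evU_congr hu F N
    have h3 := evU_congr hu G N
    rw [map_add, Polynomial.eval_add] at h1
    have : evU u (F + G) - (evU u F + evU u G)
        = (evU u (F + G) - ((trunc N F).eval u + (trunc N G).eval u))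
          - (evU u F - (trunc N F).eval u) - (evU u G - (trunc N G).eval u) := by ring
    rw [this]
    exact dvd_sub (dvd_sub h1 h2) h3
  map_mul' := by
    intro F G
    apply eq_of_forall_dvd
    intro N
    have h1 := evU_congr hu (F * G) N
    have h2 := evU_congr hu F N
    have h3 := evU_congr hu G N
    have h4 := eval_sub_eval_trunc hu (trunc N F * trunc N G) N
    rw [Polynomial.coe_mul, trunc_trunc_mul_trunc, Polynomial.eval_mul] at h4
    have : evU u (F * G) - evU u F * evU u G
        = (evU u (F * G) - (trunc N (F * G)).eval u)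
          - ((trunc N F).eval u * (trunc N G).eval u - (trunc N (F * G)).eval u)
          - (evU u F - (trunc N F).eval u) * evU u G
          - (trunc N F).eval u * (evU u G - (trunc N G).eval u) := by ring
    rw [this]
    exact dvd_sub (dvd_sub (dvd_sub h1 h4) (Dvd.dvd.mul_right h2 _)) (Dvd.dvd.mul_left h3 _)

theorem evHom_congr {u : l⟦X⟧} (hu : X ∣ u) (F : (l⟦X⟧)⟦X⟧) (N : ℕ) :
    (X : l⟦X⟧) ^ N ∣ evHom u hu F - ∑ i ∈ Finset.range N, coeff i F * u ^ i := by
  rw [← eval_trunc_eq]
  exact evU_congr hu F N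

end Eval

section Unip

variable {l : Type*} [CommRing l] {f : l⟦X⟧ →+* l⟦X⟧}
  (hf : ∀ (k : ℕ) (x : l⟦X⟧), (X : l⟦X⟧) ^ k ∣ x → (X : l⟦X⟧) ^ (k + 1) ∣ f x - x)

include hf

theorem unip_dvd_iff {x : l⟦X⟧} {k : ℕ} : (X : l⟦X⟧) ^ k ∣ f x ↔ (X : l⟦X⟧) ^ k ∣ x := by
  constructor
  · intro h
    induction k with
    | zero => simp
    | succ k ih =>
      have h1 := ih ((pow_dvd_pow X (Nat.le_succ k)).trans h)
      have h2 := dvd_sub h (hf k x h1)
      rwa [sub_sub_cancel] at h2
  · intro h
    have h1 := (pow_dvd_pow X (Nat.le_succ k)).trans (hf k x h)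
    have h2 := dvd_add h1 h
    rwa [sub_add_cancel] at h2

theorem unip_injective : Function.Injective f := by
  rw [injective_iff_map_eq_zero]
  intro x hx
  apply eq_of_forall_dvd
  intro N
  rw [sub_zero, ← unip_dvd_iff hf, hx]
  exact dvd_zero _

omit hf in
/-- successive approximations -/
noncomputable def approx (f : l⟦X⟧ → l⟦X⟧) (y : l⟦X⟧) : ℕ → l⟦X⟧
  | 0 => 0
  | n + 1 => approx f y n + (y - f (approx f y n))

theorem unip_surjective : Function.Surjective f := by
  intro y
  have h1 : ∀ n, (X : l⟦X⟧) ^ n ∣ y - f (approx f y n) := by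
    intro n
    induction n with
    | zero => simp
    | succ n ih =>
      have h2 := hf _ _ ih
      have h3 : y - f (approx f y (n + 1)) = - (f (y - f (approx f y n)) - (y - f (approx f y n))) := by
        rw [approx, map_add]
        ring
      rw [h3]
      exact (dvd_neg).2 h2
  have h2 : ∀ n, (X : l⟦X⟧) ^ n ∣ approx f y (n + 1) - approx f y n := by
    intro n
    rw [approx, add_sub_cancel_left]
    exact h1 n
  have h3 : ∀ n k, (X : l⟦X⟧) ^ n ∣ approx f y (n + k) - approx f y n := by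
    intro n k
    induction k with
    | zero => simp
    | succ k ih =>
      have := dvd_add ((pow_dvd_pow X (Nat.le_add_right n k)).trans (h2 (n + k))) ih
      rwa [sub_add_sub_cancel] at this
  let x : l⟦X⟧ := PowerSeries.mk fun m => coeff m (approx f y (m + 1))
  have h4 : ∀ n, (X : l⟦X⟧) ^ n ∣ x - approx f y n := by
    intro n
    rw [X_pow_dvd_iff]
    intro m hm
    rw [map_sub, coeff_mk, ← neg_sub, neg_eq_zero, ← map_sub]
    obtain ⟨k, hk⟩ := Nat.exists_eq_add_of_le (Nat.succ_le_of_lt hm)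
    have h5 := h3 (m + 1) k
    rw [Nat.succ_eq_add_one] at hk
    rw [← hk, X_pow_dvd_iff] at h5
    exact h5 m (Nat.lt_succ_self m)
  refine ⟨x, ?_⟩
  apply eq_of_forall_dvd
  intro N
  have h5 : (X : l⟦X⟧) ^ N ∣ f (x - approx f y N) := (unip_dvd_iff hf).2 (h4 N)
  have h6 : f x - y = f (x - approx f y N) - (y - f (approx f y N)) := by
    rw [map_sub]; ring
  rw [h6]
  exact dvd_sub h5 (h1 N)

end Unip

section Psi

variable {l : Type*} [CommRing l] (ψ : l →+* l⟦X⟧)

/-- the endomorphism of `l⟦X⟧` fixing `X` and equal to `ψ` on constants -/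
noncomputable def Psi0 : l⟦X⟧ →+* l⟦X⟧ := (evHom X dvd_rfl).comp (PowerSeries.map ψ)

theorem coeff_Psi0 (x : l⟦X⟧) (n : ℕ) :
    coeff n (Psi0 ψ x) = ∑ i ∈ Finset.range (n + 1), coeff (n - i) (ψ (coeff i x)) := by
  change coeff n (evU X (PowerSeries.map ψ x)) = _
  rw [evU, coeff_mk, eval_trunc_eq, map_sum]
  refine Finset.sum_congr rfl fun i hi => ?_
  rw [Finset.mem_range] at hi
  rw [coeff_mul_X_pow', if_pos (by omega), coeff_map]

variable {ψ} (hψ : ∀ x, constantCoeff (ψ x) = x)
include hψ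

theorem Psi0_sub (k : ℕ) (x : l⟦X⟧) (hx : (X : l⟦X⟧) ^ k ∣ x) :
    (X : l⟦X⟧) ^ (k + 1) ∣ Psi0 ψ x - x := by
  rw [X_pow_dvd_iff] at hx ⊢
  intro m hm
  rw [map_sub, coeff_Psi0, Finset.sum_range_succ, Finset.sum_eq_zero, zero_add, Nat.sub_self,
    coeff_zero_eq_constantCoeff_apply, hψ, sub_self]
  intro i hi
  rw [Finset.mem_range] at hi
  rw [hx i (by omega), map_zero, map_zero]

/-- `Psi0` as an automorphism -/
noncomputable def PsiEquiv : l⟦X⟧ ≃+* l⟦X⟧ :=
  RingEquiv.ofBijective (Psi0 ψ) ⟨unip_injective (Psi0_sub hψ), unip_surjective (Psi0_sub hψ)⟩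

omit hψ in
theorem Psi0_C (a : l) : Psi0 ψ (C a) = ψ a := by
  ext n
  rw [coeff_Psi0, Finset.sum_range_succ', Finset.sum_eq_zero, zero_add, Nat.sub_zero,
    coeff_zero_C]
  intro i _
  rw [coeff_succ_C, map_zero, map_zero]

omit hψ in
theorem Psi0_X : Psi0 ψ X = X := by
  ext n
  rw [coeff_Psi0]
  rcases n with _ | n
  · simp
  · rw [Finset.sum_eq_single 1]
    · rw [coeff_one_X, map_one, coeff_one, coeff_X]
      by_cases h : n = 0
      · simp [h]
      · rw [if_neg (by omega), if_neg (by omega)]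
    · intro i _ hi
      rw [coeff_X, if_neg hi, map_zero, map_zero]
    · intro h
      exact absurd (Finset.mem_range.2 (by omega)) h

omit hψ in
theorem Psi0_of_const {x : l⟦X⟧} (h : ∀ n, ψ (coeff n x) = C (coeff n x)) : Psi0 ψ x = x := by
  ext n
  rw [coeff_Psi0, Finset.sum_range_succ, Finset.sum_eq_zero, zero_add, Nat.sub_self, h,
    coeff_zero_C]
  intro i hi
  rw [Finset.mem_range] at hi
  rw [h, coeff_C, if_neg (by omega)]

omit hψ in
theorem Psi0_comm (γ : l →+* l) {ε : l} (hε : ε = 1 ∨ ε = -1)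
    (h : ∀ (a : l) (n : ℕ), coeff n (ψ (γ a)) = ε ^ n * γ (coeff n (ψ a))) (x y : l⟦X⟧)
    (hxy : ∀ n, coeff n y = ε ^ n * γ (coeff n x)) (n : ℕ) :
    coeff n (Psi0 ψ y) = ε ^ n * γ (coeff n (Psi0 ψ x)) := by
  rw [coeff_Psi0, coeff_Psi0, map_sum, Finset.mul_sum]
  refine Finset.sum_congr rfl fun i hi => ?_
  rw [Finset.mem_range] at hi
  have h1 : ψ (ε ^ i) = C (ε ^ i) := by
    rcases hε with rfl | rfl
    · simp
    · rw [map_pow, map_neg, map_one, map_pow, map_neg, map_one]
  rw [hxy, map_mul, h1, coeff_C_mul, h, ← mul_assoc, ← pow_add]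
  congr 2
  omega

end Psi

section TaylorPsi

variable {l : Type*} [CommRing l] [Algebra ℚ l]

/-- the Taylor homomorphism `a ↦ ∑ u ^ i d ^ i a / i!` -/
noncomputable def taylor (d : Derivation ℤ l l) (u : l⟦X⟧) (hu : X ∣ u) : l →+* l⟦X⟧ :=
  (evHom u hu).comp ((PowerSeries.map (C (R := l))).comp (expHom d))

variable {d : Derivation ℤ l l} {u : l⟦X⟧} (hu : X ∣ u)

theorem taylor_congr (a : l) (N : ℕ) :
    (X : l⟦X⟧) ^ N ∣ taylor d u hu a
      - ∑ i ∈ Finset.range N, C (((i.factorial : ℚ)⁻¹) • (d^[i] a)) * u ^ i := by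
  have := evHom_congr hu (PowerSeries.map (C (R := l)) (expHom d a)) N
  have h : ∀ i, coeff i (PowerSeries.map (C (R := l)) (expHom d a))
      = C (((i.factorial : ℚ)⁻¹) • (d^[i] a)) := by
    intro i
    rw [coeff_map]
    exact congrArg _ (coeff_expD d a i)
  simp only [h] at this
  exact this

theorem iterate_zero_of {x : l} (h : d x = 0) (i : ℕ) (hi : i ≠ 0) : d^[i] x = 0 := by
  obtain ⟨j, rfl⟩ := Nat.exists_eq_succ_of_ne_zero hi
  rw [Function.iterate_succ_apply, h]
  clear hi
  induction j with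
  | zero => rfl
  | succ j ih => rw [Function.iterate_succ_apply', ih, map_zero]

theorem taylor_of_const {x : l} (h : d x = 0) : taylor d u hu x = C x := by
  apply eq_of_forall_dvd
  intro N
  have h1 := taylor_congr (d := d) hu x (N + 1)
  rw [Finset.sum_range_succ', Finset.sum_eq_zero] at h1
  · simp only [Nat.factorial_zero, Nat.cast_one, inv_one, one_smul, Function.iterate_zero_apply,
      pow_zero, mul_one, zero_add] at h1
    exact (pow_dvd_pow X (Nat.le_succ N)).trans h1
  · intro i _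
    rw [iterate_zero_of h (i + 1) (Nat.succ_ne_zero i), smul_zero, map_zero, zero_mul]

theorem taylor_of_one {x : l} (h : d x = 1) : taylor d u hu x = C x + u := by
  apply eq_of_forall_dvd
  intro N
  have h1 := taylor_congr (d := d) hu x (N + 2)
  rw [Finset.sum_range_succ', Finset.sum_range_succ', Finset.sum_eq_zero] at h1
  · simp only [Nat.factorial_zero, Nat.cast_one, inv_one, one_smul, Function.iterate_zero_apply,
      pow_zero, mul_one, zero_add, Function.iterate_one, Nat.factorial_one, h, one_mul, pow_one,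
      map_one] at h1
    rw [add_comm u (C x)] at h1
    exact (pow_dvd_pow X (by omega)).trans h1
  · intro i _
    have : d^[i + 1 + 1] x = 0 := by
      rw [Function.iterate_succ_apply, h]
      exact iterate_zero_of (d.map_one_eq_zero) (i + 1) (Nat.succ_ne_zero i)
    rw [this, smul_zero, map_zero, zero_mul]

theorem constantCoeff_taylor (a : l) : constantCoeff (taylor d u hu a) = a := by
  have h1 := taylor_congr (d := d) hu a 1
  rw [Finset.sum_range_one, X_pow_dvd_iff] at h1
  have h2 := h1 0 Nat.zero_lt_one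
  simp only [Nat.factorial_zero, Nat.cast_one, inv_one, one_smul, Function.iterate_zero_apply,
      pow_zero, mul_one, map_sub, coeff_zero_eq_constantCoeff_apply, constantCoeff_C,
      sub_eq_zero] at h2
  exact h2

/-- commutation with `∑ xₙ Xⁿ ↦ ∑ εⁿ γ(xₙ) Xⁿ` -/
theorem taylor_comm (γ : l →+* l) (ε : l) (hγd : ∀ x, γ (d x) = d (γ x))
    (hγu : ∀ n, ε ^ n * γ (coeff n u) = coeff n u) (a : l) (n : ℕ) :
    coeff n (taylor d u hu (γ a)) = ε ^ n * γ (coeff n (taylor d u hu a)) := by
  -- the ring homomorphism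
  let s : l⟦X⟧ →+* l⟦X⟧ := (rescale ε).comp (PowerSeries.map γ)
  have hs : ∀ x m, coeff m (s x) = ε ^ m * γ (coeff m x) := by
    intro x m
    change coeff m (rescale ε (PowerSeries.map γ x)) = _
    rw [coeff_rescale, coeff_map]
  have hsu : s u = u := by
    ext m
    rw [hs, hγu]
  have hsC : ∀ b, s (C b) = C (γ b) := by
    intro b
    ext m
    rw [hs, coeff_C, coeff_C]
    split_ifs with h
    · rw [h, pow_zero, one_mul]
    · rw [map_zero, mul_zero]
  have hsd : ∀ k x, (X : l⟦X⟧) ^ k ∣ x → (X : l⟦X⟧) ^ k ∣ s x := by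
    intro k x hx
    rw [X_pow_dvd_iff] at hx ⊢
    intro m hm
    rw [hs, hx m hm, map_zero, mul_zero]
  have key : taylor d u hu (γ a) = s (taylor d u hu a) := by
    apply eq_of_forall_dvd
    intro N
    have h1 := taylor_congr (d := d) hu (γ a) N
    have h2 := hsd _ _ (taylor_congr (d := d) hu a N)
    have h3 : ∀ i, d^[i] (γ a) = γ (d^[i] a) := by
      intro i
      induction i with
      | zero => rfl
      | succ i ih => rw [Function.iterate_succ_apply', Function.iterate_succ_apply', ih, hγd]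
    have h4 : s (∑ i ∈ Finset.range N, C (((i.factorial : ℚ)⁻¹) • (d^[i] a)) * u ^ i)
        = ∑ i ∈ Finset.range N, C (((i.factorial : ℚ)⁻¹) • (d^[i] (γ a))) * u ^ i := by
      rw [map_sum]
      refine Finset.sum_congr rfl fun i _ => ?_
      rw [map_mul, map_pow, hsu, hsC, h3, map_rat_smul]
    rw [map_sub, h4] at h2
    have := dvd_sub h1 h2
    rwa [sub_sub_sub_cancel_right] at this
  rw [key, hs]

end TaylorPsi

end Pool.Agent.Helper49.Div
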