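import Mathlib

namespace Pool.Agent.Helper49.Div

open Polynomial TensorProduct

section Ext

variable {R S T : Type*} [CommRing R] [CommRing S] [CommRing T] [Algebra R S] [Algebra R T]
  [Algebra S T] [IsScalarTower R S T]

/-- Derivations extend along formally étale maps. -/
theorem exists_derivation_extension [Algebra.FormallyEtale S T] (d : Derivation R S T) :
    ∃ D : Derivation R T T, ∀ s, D (algebraMap S T s) = d s := by
  let e := KaehlerDifferential.tensorKaehlerEquivOfFormallyEtale R S T
  let l : T ⊗[S] Ω[S⁄R] →ₗ[T] T := LinearMap.liftBaseChange T (d.liftKaehlerDifferential)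
  refine ⟨(l.comp e.symm.toLinearMap).compDer (KaehlerDifferential.D R T), fun s => ?_⟩
  have h1 : e.symm (KaehlerDifferential.D R T (algebraMap S T s))
      = 1 ⊗ₜ KaehlerDifferential.D R S s :=
    KaehlerDifferential.tensorKaehlerEquivOfFormallyEtale_symm_D_algebraMap R S T s
  have h2 : (l.comp e.symm.toLinearMap).compDer (KaehlerDifferential.D R T) (algebraMap S T s)
      = l (e.symm (KaehlerDifferential.D R T (algebraMap S T s))) := rfl
  rw [h2, h1]
  simp [l]

end Ext

section Ex

open scoped IntermediateField.algebraAdjoinAdjoin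

variable {F Ω : Type*} [Field F] [Field Ω] [Algebra F Ω] [CharZero F]

theorem exists_derivation_of_isTranscendenceBasis {ι : Type*} {x : ι → Ω}
    (hx : IsTranscendenceBasis F x) (v : ι → Ω) :
    ∃ D : Derivation F Ω Ω, ∀ i, D (x i) = v i := by
  classical
  let S := Algebra.adjoin F (Set.range x)
  let K := IntermediateField.adjoin F (Set.range x)
  have h1 : Algebra.FormallyEtale S K := .of_isLocalization (nonZeroDivisors S)
  have h2 : Algebra.IsAlgebraic K Ω := hx.isAlgebraic_field
  have h3 : Algebra.FormallyEtale K Ω := Algebra.FormallyEtale.of_isSeparable K Ω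
  have h4 : Algebra.FormallyEtale S Ω := .comp S K Ω
  let e : MvPolynomial ι F ≃ₐ[F] S := hx.1.aevalEquiv
  let _ : Algebra (MvPolynomial ι F) Ω := (MvPolynomial.aeval x : MvPolynomial ι F →ₐ[F] Ω).toAlgebra
  have hsm : ∀ (p : MvPolynomial ι F) (w : Ω), p • w = (e p : Ω) * w := by
    intro p w
    have : (e p : Ω) = MvPolynomial.aeval x p := hx.1.algebraMap_aevalEquiv p
    rw [this]; rfl
  have : IsScalarTower F (MvPolynomial ι F) Ω := IsScalarTower.of_algebraMap_eq (by
    intro r
    change algebraMap F Ω r = MvPolynomial.aeval x (algebraMap F (MvPolynomial ι F) r)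
    rw [AlgHom.commutes])
  let d0 : Derivation F (MvPolynomial ι F) Ω := MvPolynomial.mkDerivation F v
  let d : Derivation F S Ω := Derivation.mk' (d0.toLinearMap.comp e.symm.toLinearMap) (by
    intro a b
    change d0 (e.symm (a * b)) = a • d0 (e.symm b) + b • d0 (e.symm a)
    rw [map_mul, d0.leibniz, hsm, hsm, AlgEquiv.apply_symm_apply, AlgEquiv.apply_symm_apply]
    rfl)
  obtain ⟨D, hD⟩ := exists_derivation_extension d
  refine ⟨D, fun i => ?_⟩
  have h5 : e (MvPolynomial.X i) = (⟨x i, Algebra.subset_adjoin ⟨i, rfl⟩⟩ : S) := by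
    apply Subtype.ext
    have : (e (MvPolynomial.X i) : Ω) = MvPolynomial.aeval x (MvPolynomial.X i) :=
      hx.1.algebraMap_aevalEquiv _
    rw [this, MvPolynomial.aeval_X]
  have h6 := hD (⟨x i, Algebra.subset_adjoin ⟨i, rfl⟩⟩ : S)
  have h7 : D (x i) = d (⟨x i, Algebra.subset_adjoin ⟨i, rfl⟩⟩ : S) := h6
  rw [h7, ← h5]
  change d0 (e.symm (e (MvPolynomial.X i))) = v i
  rw [AlgEquiv.symm_apply_apply]
  exact MvPolynomial.mkDerivation_X F v i

theorem exists_derivation_of_algebraicIndependent {ι : Type*} {x : ι → Ω}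
    (hx : AlgebraicIndependent F x) (v : ι → Ω) :
    ∃ D : Derivation F Ω Ω, ∀ i, D (x i) = v i := by
  classical
  obtain ⟨t, ht, htb⟩ := exists_isTranscendenceBasis_superset (R := F) (s := Set.range x)
    hx.coe_range
  let w : t → Ω := fun y => if h : ∃ i, x i = y then v h.choose else 0
  obtain ⟨D, hD⟩ := exists_derivation_of_isTranscendenceBasis htb w
  refine ⟨D, fun i => ?_⟩
  have h1 := hD ⟨x i, ht ⟨i, rfl⟩⟩
  rw [h1]
  have h2 : ∃ j, x j = ((⟨x i, ht ⟨i, rfl⟩⟩ : t) : Ω) := ⟨i, rfl⟩
  simp only [w, dif_pos h2]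
  congr 1
  exact hx.injective h2.choose_spec

end Ex



section Alg

variable {F B : Type*} [Field F] [CommRing B] [IsDomain B] [Algebra F B] [CharZero B]

theorem exists_aeval_derivation (D : Derivation F B B) (A : Subalgebra F B)
    (hD : ∀ a ∈ A, D a ∈ A) (f : B) (P : A[X]) :
    ∃ Q : A[X], D (aeval f P) = aeval f Q + aeval f (derivative P) * D f := by
  induction P using Polynomial.induction_on' with
  | add p q hp hq =>
    obtain ⟨Q1, h1⟩ := hp
    obtain ⟨Q2, h2⟩ := hq
    refine ⟨Q1 + Q2, ?_⟩
    rw [map_add, map_add, h1, h2, map_add, map_add, map_add]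
    ring
  | monomial n a =>
    refine ⟨monomial n ⟨D a, hD a a.2⟩, ?_⟩
    rw [aeval_monomial, aeval_monomial, derivative_monomial, aeval_monomial, D.leibniz,
      D.leibniz_pow]
    simp only [smul_eq_mul, nsmul_eq_mul, map_mul, map_natCast]
    change (a : B) * _ + f ^ n * D (a : B) = (D (a : B)) * f ^ n + ((a : B) * _) * _ * _
    ring

theorem aeval_derivation_of_kill (D : Derivation F B B) (A : Subalgebra F B)
    (hD : ∀ a ∈ A, D a = 0) (f : B) (P : A[X]) :
    D (aeval f P) = aeval f (derivative P) * D f := by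
  induction P using Polynomial.induction_on' with
  | add p q hp hq =>
    rw [map_add, map_add, hp, hq, map_add, map_add]
    ring
  | monomial n a =>
    rw [aeval_monomial, derivative_monomial, aeval_monomial, D.leibniz,
      D.leibniz_pow]
    have h0 : D (algebraMap A B a) = 0 := hD a a.2
    rw [h0]
    simp only [smul_eq_mul, nsmul_eq_mul, map_mul, map_natCast, mul_zero, add_zero]
    ring

/-- a minimal-degree annihilating polynomial -/
theorem exists_min_poly {A : Subalgebra F B} {f : B} (hf : IsAlgebraic A f) :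
    ∃ P : A[X], aeval f P = 0 ∧ aeval f (derivative P) ≠ 0 := by
  classical
  obtain ⟨P0, hP0, hP0f⟩ := hf
  have hex : ∃ n : ℕ, ∃ P : A[X], P ≠ 0 ∧ aeval f P = 0 ∧ P.natDegree = n :=
    ⟨P0.natDegree, P0, hP0, hP0f, rfl⟩
  obtain ⟨P, hP, hPf, hPn⟩ := Nat.find_spec hex
  have hmin : ∀ Q : A[X], Q ≠ 0 → aeval f Q = 0 → P.natDegree ≤ Q.natDegree := by
    intro Q hQ hQf
    rw [hPn]
    exact Nat.find_min' hex ⟨Q, hQ, hQf, rfl⟩
  refine ⟨P, hPf, fun h => ?_⟩
  have hinj : Function.Injective (algebraMap A B) := Subtype.val_injective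
  have : CharZero A := ⟨fun m n hmn => by
    have : ((m : A) : B) = ((n : A) : B) := congrArg _ hmn
    exact_mod_cast this⟩
  have hd : 0 < P.natDegree := by
    rcases Nat.eq_zero_or_pos P.natDegree with h0 | h0
    · exfalso
      rw [eq_C_of_natDegree_eq_zero h0, aeval_C] at hPf
      apply hP
      rw [eq_C_of_natDegree_eq_zero h0]
      have : P.coeff 0 = 0 := hinj (by rw [hPf, map_zero])
      rw [this, C_0]
    · exact h0
  have hdne : derivative P ≠ 0 := by
    intro h1
    have := natDegree_eq_zero_of_derivative_eq_zero h1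
    omega
  have h2 := hmin _ hdne h
  have h3 := natDegree_derivative_lt hd.ne'
  omega

theorem derivation_eq_zero_of_isAlgebraic (D : Derivation F B B) (A : Subalgebra F B)
    (hD : ∀ a ∈ A, D a = 0) {f : B} (hf : IsAlgebraic A f) : D f = 0 := by
  obtain ⟨P, hP, hP'⟩ := exists_min_poly hf
  have h1 := aeval_derivation_of_kill D A hD f P
  rw [hP, map_zero] at h1
  exact (mul_eq_zero.1 h1.symm).resolve_left hP'

theorem isAlgebraic_aeval {A : Subalgebra F B} {f : B} (hf : IsAlgebraic A f) (P : A[X]) :
    IsAlgebraic A (aeval f P) := by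
  have h1 : f ∈ Subalgebra.algebraicClosure A B := hf
  have h2 : aeval f P ∈ Subalgebra.algebraicClosure A B := by
    have h3 : aeval f P ∈ Algebra.adjoin A {f} := aeval_mem_adjoin_singleton A f
    exact Algebra.adjoin_le (Set.singleton_subset_iff.2 h1) h3
  exact h2

theorem isAlgebraic_derivation (D : Derivation F B B) (A : Subalgebra F B)
    (hD : ∀ a ∈ A, D a ∈ A) {f : B} (hf : IsAlgebraic A f) : IsAlgebraic A (D f) := by
  obtain ⟨P, hP, hP'⟩ := exists_min_poly hf
  obtain ⟨Q, hQ⟩ := exists_aeval_derivation D A hD f P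
  rw [hP, map_zero] at hQ
  have h1 : aeval f (derivative P) * D f = - aeval f Q := by
    linear_combination -hQ
  refine IsAlgebraic.of_mul (mem_nonZeroDivisors_of_ne_zero hP')
    (isAlgebraic_aeval hf (derivative P)) ?_
  rw [h1]
  exact (isAlgebraic_aeval hf Q).neg

/-- exchange -/
theorem isAlgebraic_exchange {s h t : B} (h1 : ¬ IsAlgebraic (Algebra.adjoin F {s}) h)
    (h2 : IsAlgebraic (Algebra.adjoin F {t, s}) h) :
    IsAlgebraic (Algebra.adjoin F {h, s}) t := by
  have e : ∀ (S : Set B) (x : B), x ∈ (AlgebraicIndependent.matroid F B).closure S ↔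
      IsAlgebraic (Algebra.adjoin F S) x := by
    intro S x
    have := AlgebraicIndependent.matroid_closure_eq (R := F) (A := B) (s := S)
    rw [this]
    rfl
  rw [← e] at h1 h2 ⊢
  exact (Matroid.mem_closure_insert h1 h2)

end Alg

section Coeff

variable {F W : Type*} [Field F] [Field W] [Algebra F W]

/-- coefficientwise extension of a derivation to polynomials -/
noncomputable def cd (d : Derivation F W W) : Derivation F W[X] W[X] :=
  (PolynomialModule.equivPolynomialSelf (R := W)).toLinearMap.compDer d.mapCoeffs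

theorem coeff_cd (d : Derivation F W W) (f : W[X]) (i : ℕ) : (cd d f).coeff i = d (f.coeff i) := by
  rfl

theorem cd_C (d : Derivation F W W) (w : W) : cd d (C w) = C (d w) := by
  ext i
  rw [coeff_cd, coeff_C, coeff_C]
  split_ifs <;> simp

theorem cd_X (d : Derivation F W W) : cd d (X : W[X]) = 0 := by
  ext i
  rw [coeff_cd, coeff_X, coeff_zero]
  split_ifs <;> simp

variable [CharZero F]

/-- `F` algebraically closed in `W`, then a polynomial over `W` algebraic over `F[X]` has
coefficients in `F`. -/
theorem coeff_mem_of_isAlgebraic (hF : ∀ w : W, IsAlgebraic F w → w ∈ (algebraMap F W).range)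
    {f : W[X]} (hf : IsAlgebraic (Algebra.adjoin F {(X : W[X])}) f) (i : ℕ) :
    f.coeff i ∈ (algebraMap F W).range := by
  by_contra hni
  have h1 : Transcendental F (f.coeff i) := fun h => hni (hF _ h)
  have h2 : AlgebraicIndependent F (fun _ : Unit => f.coeff i) := by
    rw [algebraicIndependent_unique_type_iff]
    exact h1
  have : CharZero W := charZero_of_injective_algebraMap (algebraMap F W).injective
  obtain ⟨d, hd⟩ := exists_derivation_of_algebraicIndependent h2 (fun _ => (1 : W))
  have h3 : ∀ a ∈ Algebra.adjoin F {(X : W[X])}, cd d a = 0 := by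
    intro a ha
    induction ha using Algebra.adjoin_induction with
    | mem x hx =>
      rw [Set.mem_singleton_iff] at hx
      rw [hx, cd_X]
    | algebraMap r => exact Derivation.map_algebraMap _ r
    | add x y _ _ hx hy => rw [map_add, hx, hy, add_zero]
    | mul x y _ _ hx hy => rw [Derivation.leibniz, hx, hy, smul_zero, smul_zero, add_zero]
  have h4 := derivation_eq_zero_of_isAlgebraic (cd d) _ h3 hf
  have h5 := congrArg (fun g : W[X] => g.coeff i) h4
  rw [coeff_cd, hd ()] at h5
  simp at h5

theorem mem_adjoin_X_of_coeff {f : W[X]} (hf : ∀ i, f.coeff i ∈ (algebraMap F W).range) :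
    f ∈ Algebra.adjoin F {(X : W[X])} := by
  have key : ∀ i, C (f.coeff i) * X ^ i ∈ Algebra.adjoin F {(X : W[X])} := by
    intro i
    obtain ⟨c, hc⟩ := hf i
    refine mul_mem ?_ (pow_mem (Algebra.subset_adjoin (Set.mem_singleton _)) _)
    rw [← hc]
    have : C (algebraMap F W c) = algebraMap F W[X] c := rfl
    rw [this]
    exact Subalgebra.algebraMap_mem _ c
  have h := Subalgebra.sum_mem (Algebra.adjoin F {(X : W[X])})
    (t := Finset.range (f.natDegree + 1)) (fun i _ => key i)
  rwa [← f.as_sum_range_C_mul_X_pow] at h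

end Coeff

section Cut

open scoped IntermediateField.algebraAdjoinAdjoin

variable {F W : Type*} [Field F] [Field W] [Algebra F W] [CharZero F]

/-- the polynomial form of the generic pencil lemma -/
theorem mem_adjoin_of_isAlgebraic (hF : ∀ w : W, IsAlgebraic F w → w ∈ (algebraMap F W).range)
    {a b : W} (hab : AlgebraicIndependent F ![a, b]) :
    ∀ (n : ℕ) (f : W[X]), f.natDegree < n →
      IsAlgebraic (Algebra.adjoin F {C a + X * C b, (X : W[X])}) f →
      f ∈ Algebra.adjoin F {C a + X * C b, (X : W[X])} := by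
  have hchar : CharZero W := charZero_of_injective_algebraMap (algebraMap F W).injective
  obtain ⟨da, hda⟩ := exists_derivation_of_algebraicIndependent hab ![1, 0]
  obtain ⟨db, hdb⟩ := exists_derivation_of_algebraicIndependent hab ![0, 1]
  have haa : da a = 1 := hda 0
  have hab' : da b = 0 := hda 1
  have hba : db a = 0 := hdb 0
  have hbb : db b = 1 := hdb 1
  set t : W[X] := C a + X * C b with ht
  set A := Algebra.adjoin F {t, (X : W[X])} with hA
  have hD : cd da t = 1 := by
    rw [ht, map_add, Derivation.leibniz, cd_C, cd_C, cd_X, haa, hab']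
    simp
  have hE : cd db t = X := by
    rw [ht, map_add, Derivation.leibniz, cd_C, cd_C, cd_X, hba, hbb]
    simp
  have htA : t ∈ A := Algebra.subset_adjoin (by simp)
  have hXA : (X : W[X]) ∈ A := Algebra.subset_adjoin (by simp)
  have hDA : ∀ x ∈ A, cd da x ∈ A := by
    intro x hx
    induction hx using Algebra.adjoin_induction with
    | mem x hx =>
      rcases hx with rfl | hx
      · rw [hD]; exact one_mem _
      · rw [Set.mem_singleton_iff] at hx
        rw [hx, cd_X]; exact zero_mem _
    | algebraMap r => rw [Derivation.map_algebraMap]; exact zero_mem _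
    | add x y _ _ hx hy => rw [map_add]; exact add_mem hx hy
    | mul x y hx' hy' hx hy =>
      rw [Derivation.leibniz]
      exact add_mem (mul_mem hx' hy) (mul_mem hy' hx)
  -- the derivation `X * da - db` kills `A`
  let δ : Derivation F W[X] W[X] := (X : W[X]) • cd da - cd db
  have hδ : ∀ x, δ x = X * cd da x - cd db x := fun x => rfl
  have hδA : ∀ x ∈ A, δ x = 0 := by
    intro x hx
    induction hx using Algebra.adjoin_induction with
    | mem x hx =>
      rcases hx with rfl | hx
      · rw [hδ, hD, hE]; ring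
      · rw [Set.mem_singleton_iff] at hx
        rw [hδ, hx, cd_X, cd_X]; ring
    | algebraMap r => rw [Derivation.map_algebraMap]
    | add x y _ _ hx hy => rw [map_add, hx, hy, add_zero]
    | mul x y _ _ hx hy => rw [Derivation.leibniz, hx, hy, smul_zero, smul_zero, add_zero]
  -- the case of elements killed by `da`
  have hker : ∀ h : W[X], IsAlgebraic A h → cd da h = 0 → h ∈ A := by
    intro h hh h0
    have h1 : IsAlgebraic (Algebra.adjoin F {(X : W[X])}) h := by
      by_contra hcon
      have h2 := isAlgebraic_exchange hcon hh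
      have h3 : ∀ x ∈ Algebra.adjoin F {h, (X : W[X])}, cd da x = 0 := by
        intro x hx
        induction hx using Algebra.adjoin_induction with
        | mem x hx =>
          rcases hx with rfl | hx
          · exact h0
          · rw [Set.mem_singleton_iff] at hx
            rw [hx, cd_X]
        | algebraMap r => rw [Derivation.map_algebraMap]
        | add x y _ _ hx hy => rw [map_add, hx, hy, add_zero]
        | mul x y _ _ hx hy => rw [Derivation.leibniz, hx, hy, smul_zero, smul_zero, add_zero]
      have h4 := derivation_eq_zero_of_isAlgebraic (cd da) _ h3 h2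
      rw [hD] at h4
      exact one_ne_zero h4
    have h2 := mem_adjoin_X_of_coeff (F := F) (f := h) (coeff_mem_of_isAlgebraic hF h1)
    exact Algebra.adjoin_mono (by simp) h2
  -- surjectivity of `cd da` on `A`
  have hsurj : ∀ y ∈ A, ∃ g ∈ A, cd da g = y := by
    intro y hy
    have hrange : Set.range ![t, (X : W[X])] = {t, (X : W[X])} := by
      ext z
      simp [or_comm]
    rw [hA, ← hrange, Algebra.adjoin_range_eq_range_aeval] at hy
    obtain ⟨p, rfl⟩ := hy
    induction p using MvPolynomial.induction_on' with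
    | monomial m c =>
      refine ⟨algebraMap F W[X] (c / ((m 0 : F) + 1)) * (t ^ (m 0 + 1) * X ^ (m 1)),
        mul_mem (Subalgebra.algebraMap_mem _ _) (mul_mem (pow_mem htA _) (pow_mem hXA _)), ?_⟩
      have hm : (m 0 : F) + 1 ≠ 0 := by exact_mod_cast Nat.succ_ne_zero (m 0)
      have h1 : cd da (t ^ (m 0 + 1) * X ^ (m 1)) = ((m 0 : W[X]) + 1) * (t ^ (m 0) * X ^ (m 1)) := by
        rw [Derivation.leibniz, Derivation.leibniz_pow, Derivation.leibniz_pow, cd_X, hD]
        simp only [smul_eq_mul, nsmul_eq_mul, mul_zero, smul_zero, zero_add, Nat.add_sub_cancel,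
          mul_one]
        push_cast
        ring
      rw [Derivation.leibniz, Derivation.map_algebraMap, h1]
      have h2 : (MvPolynomial.aeval ![t, (X : W[X])]) (MvPolynomial.monomial m c)
          = algebraMap F W[X] c * (t ^ (m 0) * X ^ (m 1)) := by
        rw [MvPolynomial.aeval_monomial, Finsupp.prod_fintype _ _ (by simp), Fin.prod_univ_two]
        rfl
      change _ = (MvPolynomial.aeval ![t, (X : W[X])]) (MvPolynomial.monomial m c)
      rw [h2]
      have h3 : algebraMap F W[X] (c / ((m 0 : F) + 1)) * ((m 0 : W[X]) + 1) = algebraMap F W[X] c := by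
        have : ((m 0 : W[X]) + 1) = algebraMap F W[X] ((m 0 : F) + 1) := by
          rw [map_add, map_natCast, map_one]
        rw [this, ← map_mul, div_mul_cancel₀ _ hm]
      rw [smul_zero, add_zero, smul_eq_mul, ← mul_assoc, h3]
    | add p q hp hq =>
      obtain ⟨g1, hg1, h1⟩ := hp
      obtain ⟨g2, hg2, h2⟩ := hq
      refine ⟨g1 + g2, add_mem hg1 hg2, ?_⟩
      rw [map_add, h1, h2]
      exact (map_add _ _ _).symm
  intro n
  induction n with
  | zero => intro f hf; omega
  | succ n ih =>
    intro f hf hfa
    by_cases h0 : cd da f = 0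
    · exact hker f hfa h0
    · have h1 : IsAlgebraic A (cd da f) := isAlgebraic_derivation _ A hDA hfa
      have h2 : X * cd da f = cd db f := by
        have := derivation_eq_zero_of_isAlgebraic δ A hδA hfa
        rw [hδ] at this
        linear_combination this
      have h3 : (cd da f).natDegree + 1 ≤ f.natDegree := by
        rw [← natDegree_X_mul h0, h2, natDegree_le_iff_coeff_eq_zero]
        intro N hN
        rw [coeff_cd, coeff_eq_zero_of_natDegree_lt hN, map_zero]
      have h4 := ih (cd da f) (by omega) h1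
      obtain ⟨g, hg, hgf⟩ := hsurj _ h4
      have h5 : IsAlgebraic A (f - g) :=
        hfa.sub (isAlgebraic_algebraMap (⟨g, hg⟩ : A))
      have h6 := hker (f - g) h5 (by rw [map_sub, hgf, sub_self])
      have := add_mem h6 hg
      rwa [sub_add_cancel] at this

/-- **Generic pencil lemma**: `F` algebraically closed in `W` (characteristic zero), `a, b` in `W`
algebraically independent over `F`, `M` a fraction field of `W[X]`.  Then `F(X, a + X b)` is
algebraically closed in `M`. -/
theorem pencil {M : Type*} [Field M] [Algebra W[X] M] [IsFractionRing W[X] M]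
    [Algebra F M] [IsScalarTower F W[X] M]
    (hF : ∀ w : W, IsAlgebraic F w → w ∈ (algebraMap F W).range)
    {a b : W} (hab : AlgebraicIndependent F ![a, b]) {x : M}
    (hx : IsAlgebraic (IntermediateField.adjoin F
      {algebraMap W[X] M (C a + X * C b), algebraMap W[X] M X}) x) :
    x ∈ IntermediateField.adjoin F {algebraMap W[X] M (C a + X * C b), algebraMap W[X] M X} := by
  set j : W[X] →ₐ[F] M := IsScalarTower.toAlgHom F W[X] M with hj
  have hjinj : Function.Injective j := IsFractionRing.injective W[X] M
  set S : Set M := {algebraMap W[X] M (C a + X * C b), algebraMap W[X] M X} with hS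
  set A : Subalgebra F W[X] := Algebra.adjoin F {C a + X * C b, (X : W[X])} with hA
  have hmap : A.map j = Algebra.adjoin F S := by
    rw [hA, AlgHom.map_adjoin]
    congr 1
    rw [Set.image_pair]
    rfl
  -- algebraic over the subalgebra
  have h1 : IsAlgebraic (Algebra.adjoin F S) x := by
    have halg : Algebra.IsAlgebraic (Algebra.adjoin F S) (IntermediateField.adjoin F S) :=
      inferInstance
    exact hx.restrictScalars _
  let e : A ≃ₐ[F] Algebra.adjoin F S :=
    (A.equivMapOfInjective j hjinj).trans (Subalgebra.equivOfEq _ _ hmap)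
  have he : ∀ g : A, ((e g : Algebra.adjoin F S) : M) = algebraMap W[X] M (g : W[X]) := fun g => rfl
  obtain ⟨q, hq0, hq⟩ := h1.exists_integral_multiple
  have hq' : ((q : M)) = algebraMap W[X] M (e.symm q : W[X]) := by
    rw [← he, AlgEquiv.apply_symm_apply]
  -- `q • x` is integral over `W[X]`
  have h2 : IsIntegral W[X] ((q : M) * x) := by
    obtain ⟨P, hP, hP0⟩ := hq
    let k : Algebra.adjoin F S →+* W[X] := (A.val : A →+* W[X]).comp (e.symm : _ →+* A)
    refine ⟨P.map k, hP.map k, ?_⟩
    rw [eval₂_map]
    have hk : (algebraMap W[X] M).comp k = algebraMap (Algebra.adjoin F S) M := by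
      ext z
      change algebraMap W[X] M (e.symm z : W[X]) = (z : M)
      rw [← he, AlgEquiv.apply_symm_apply]
    rw [hk]
    exact hP0
  obtain ⟨f, hf⟩ := IsIntegrallyClosed.isIntegral_iff.1 h2
  have h3 : IsAlgebraic A f := by
    have h4 : IsAlgebraic (Algebra.adjoin F S) ((q : M) * x) :=
      (isAlgebraic_algebraMap q).mul h1
    rw [← hf] at h4
    exact h4.of_ringHom_of_comp_eq e (algebraMap W[X] M) e.surjective
      (IsFractionRing.injective W[X] M) (by ext z; rfl)
  have h4 : f ∈ A := mem_adjoin_of_isAlgebraic hF hab (f.natDegree + 1) f (Nat.lt_succ_self _) h3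
  have h5 : (q : M) ≠ 0 := fun h => hq0 (Subtype.ext h)
  have h6 : ∀ g ∈ A, algebraMap W[X] M g ∈ IntermediateField.adjoin F S := by
    intro g hg
    have : algebraMap W[X] M g ∈ Algebra.adjoin F S := by
      rw [← hmap]; exact ⟨g, hg, rfl⟩
    exact IntermediateField.algebra_adjoin_le_adjoin F S this
  have h7 : x = (q : M)⁻¹ * algebraMap W[X] M f := by
    rw [hf, ← mul_assoc, inv_mul_cancel₀ h5, one_mul]
  rw [h7]
  refine mul_mem (inv_mem ?_) (h6 f h4)
  rw [hq']
  exact h6 _ (e.symm q).2

end Cut

end Pool.Agent.Helper49.Div
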