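import Mathlib

/-! The standard identity: a ring that embeds into a finite-dimensional algebra over a field
satisfies a nonzero polynomial identity. -/

namespace Pool.Agent.Helper49.Div

open Finset

/-- The standard polynomial of degree `n` in the free algebra. -/
noncomputable def stdPoly (F : Type*) [Field F] (n : ℕ) : FreeAlgebra F (Fin n) :=
  ∑ σ : Equiv.Perm (Fin n),
    (Equiv.Perm.sign σ : ℤˣ) • (List.ofFn fun i => FreeAlgebra.ι F (σ i)).prod

theorem stdPoly_ne_zero (F : Type*) [Field F] (n : ℕ) : stdPoly F n ≠ 0 := by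
  classical
  intro h0
  set φ : FreeAlgebra F (Fin n) →ₐ[F] MonoidAlgebra F (FreeMonoid (Fin n)) :=
    FreeAlgebra.lift F (fun i => MonoidAlgebra.of F (FreeMonoid (Fin n)) (FreeMonoid.of i)) with hφ
  have h1 : φ (stdPoly F n) = 0 := by rw [h0, map_zero]
  have h2 : ∀ σ : Equiv.Perm (Fin n),
      φ ((List.ofFn fun i => FreeAlgebra.ι F (σ i)).prod)
        = MonoidAlgebra.of F (FreeMonoid (Fin n)) (FreeMonoid.ofList (List.ofFn σ)) := by
    intro σ
    rw [map_list_prod, List.map_ofFn]
    have : (φ ∘ fun i => FreeAlgebra.ι F (σ i))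
        = fun i => MonoidAlgebra.of F (FreeMonoid (Fin n)) (FreeMonoid.of (σ i)) := by
      funext i
      simp [hφ, FreeAlgebra.lift_ι_apply]
    rw [this]
    have h3 : (fun i => MonoidAlgebra.of F (FreeMonoid (Fin n)) (FreeMonoid.of (σ i)))
        = (MonoidAlgebra.of F (FreeMonoid (Fin n))) ∘ fun i => FreeMonoid.of (σ i) := rfl
    rw [h3, ← List.map_ofFn, ← map_list_prod]
    congr 1
    have h4 : (fun i => FreeMonoid.of (σ i)) = FreeMonoid.of ∘ (σ : Fin n → Fin n) := rfl
    rw [h4, ← List.map_ofFn]
    generalize List.ofFn (σ : Fin n → Fin n) = l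
    induction l with
    | nil => rfl
    | cons a l ih =>
      rw [List.map_cons, List.prod_cons, ih]
      rfl
  have h5 : φ (stdPoly F n) = ∑ σ : Equiv.Perm (Fin n), (Equiv.Perm.sign σ : ℤˣ) •
      MonoidAlgebra.of F (FreeMonoid (Fin n)) (FreeMonoid.ofList (List.ofFn σ)) := by
    unfold stdPoly
    rw [map_sum]
    refine Finset.sum_congr rfl fun σ _ => ?_
    rw [Units.smul_def, Units.smul_def, map_zsmul, h2]
  rw [h1] at h5
  have h6 := congrArg (fun g : MonoidAlgebra F (FreeMonoid (Fin n)) =>
    g.coeff (FreeMonoid.ofList (List.ofFn ((1 : Equiv.Perm (Fin n)) : Fin n → Fin n)))) h5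
  rw [MonoidAlgebra.coeff_sum, Finsupp.finsetSum_apply] at h6
  rw [Finset.sum_eq_single (1 : Equiv.Perm (Fin n))] at h6
  · simp [MonoidAlgebra.of_apply] at h6
  · intro σ _ hσ
    have : FreeMonoid.ofList (List.ofFn (σ : Fin n → Fin n))
        ≠ FreeMonoid.ofList (List.ofFn ((1 : Equiv.Perm (Fin n)) : Fin n → Fin n)) := by
      intro h
      apply hσ
      have := FreeMonoid.ofList.injective h
      rw [List.ofFn_inj] at this
      exact Equiv.ext (fun i => congrFun this i)
    rw [Units.smul_def, MonoidAlgebra.coeff_smul, MonoidAlgebra.of_apply, MonoidAlgebra.coeff_single,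
      Finsupp.smul_apply, Finsupp.single_eq_of_ne this.symm, smul_zero]
  · intro h
    exact absurd (Finset.mem_univ _) h

theorem lift_stdPoly {F A : Type*} [Field F] [Ring A] [Algebra F A] (n : ℕ) (a : Fin n → A) :
    FreeAlgebra.lift F a (stdPoly F n)
      = ∑ σ : Equiv.Perm (Fin n), (Equiv.Perm.sign σ : ℤˣ) • (List.ofFn fun i => a (σ i)).prod := by
  unfold stdPoly
  rw [map_sum]
  refine Finset.sum_congr rfl fun σ _ => ?_
  rw [Units.smul_def, Units.smul_def, map_zsmul, map_list_prod, List.map_ofFn]
  congr 2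
  congr 1
  funext i
  simp

theorem standard_identity {K B : Type*} [Field K] [Ring B] [Algebra K B] [FiniteDimensional K B]
    {n : ℕ} (hn : Module.finrank K B < n) (b : Fin n → B) :
    ∑ σ : Equiv.Perm (Fin n), (Equiv.Perm.sign σ : ℤˣ) • (List.ofFn fun i => b (σ i)).prod = 0 := by
  have h1 : ¬ LinearIndependent K b := by
    intro h
    have := h.fintype_card_le_finrank
    simp at this
    omega
  have h2 := AlternatingMap.map_linearDependent
    (MultilinearMap.alternatization (MultilinearMap.mkPiAlgebraFin K n B)) b h1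
  rw [MultilinearMap.alternatization_apply] at h2
  rw [← h2]
  refine Finset.sum_congr rfl fun σ _ => ?_
  rw [MultilinearMap.domDomCongr_apply, MultilinearMap.mkPiAlgebraFin_apply]

/-- A ring that embeds into a finite-dimensional algebra over a field satisfies a nonzero
polynomial identity (the standard one). -/
theorem exists_identity (F : Type*) {A B : Type*} (K : Type*) [Field F] [Ring A] [Algebra F A]
    [Field K] [Ring B] [Algebra K B] [FiniteDimensional K B] (j : A →+* B)
    (hj : Function.Injective j) :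
    ∃ n : ℕ, ∃ f : FreeAlgebra F (Fin n), f ≠ 0 ∧
      ∀ a : Fin n → A, FreeAlgebra.lift F a f = 0 := by
  refine ⟨Module.finrank K B + 1, stdPoly F _, stdPoly_ne_zero F _, fun a => ?_⟩
  rw [lift_stdPoly]
  apply hj
  rw [map_zero, map_sum, ← standard_identity (K := K) (Nat.lt_succ_self _) (fun i => j (a i))]
  refine Finset.sum_congr rfl fun σ _ => ?_
  rw [Units.smul_def, Units.smul_def, map_zsmul, map_list_prod, List.map_ofFn]
  rfl

end Pool.Agent.Helper49.Div
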