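import Pool.Agent.Helper49.Div.Pencil

/-! Tensor products of fields: `f` algebraically closed in `L` (characteristic zero), `P` any
field extension of `f`.  Then `L ⊗[f] P` is a domain and `P` is algebraically closed in its
fraction field.  Proof: `L ⊗[f] P` is differentially simple for the derivations of `L / f`. -/

namespace Pool.Agent.Helper49.Div

open Polynomial TensorProduct Module

variable {f L P : Type*} [Field f] [Field L] [Field P] [Algebra f L] [Algebra f P]

/-- elements killed by all derivations -/
theorem mem_range_of_derivation [CharZero f]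
    (hL : ∀ x : L, IsAlgebraic f x → x ∈ (algebraMap f L).range) {x : L}
    (hx : ∀ d : Derivation f L L, d x = 0) : x ∈ (algebraMap f L).range := by
  by_contra hni
  have h1 : Transcendental f x := fun h => hni (hL _ h)
  have h2 : AlgebraicIndependent f (fun _ : Unit => x) := by
    rw [algebraicIndependent_unique_type_iff]
    exact h1
  obtain ⟨d, hd⟩ := exists_derivation_of_algebraicIndependent h2 (fun _ => (1 : L))
  have := hd ()
  rw [hx d] at this
  exact zero_ne_one this

variable (P) in
/-- the derivation `d ⊗ id` -/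
noncomputable def dt (d : Derivation f L L) : Derivation f (L ⊗[f] P) (L ⊗[f] P) :=
  Derivation.mk' (LinearMap.rTensor P d.toLinearMap) (by
    intro x y
    induction x using TensorProduct.induction_on with
    | zero => simp
    | add x x' hx hx' => rw [add_mul, map_add, hx, hx', map_add, add_smul, smul_add]; abel
    | tmul a p =>
      induction y using TensorProduct.induction_on with
      | zero => simp
      | add y y' hy hy' => rw [mul_add, map_add, hy, hy', map_add, add_smul, smul_add]; abel
      | tmul b q =>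
        rw [Algebra.TensorProduct.tmul_mul_tmul, LinearMap.rTensor_tmul, LinearMap.rTensor_tmul,
          LinearMap.rTensor_tmul, smul_eq_mul, smul_eq_mul, Algebra.TensorProduct.tmul_mul_tmul,
          Algebra.TensorProduct.tmul_mul_tmul, mul_comm q p, ← add_tmul]
        congr 1
        exact d.leibniz a b)

theorem dt_tmul (d : Derivation f L L) (a : L) (p : P) : dt P d (a ⊗ₜ[f] p) = d a ⊗ₜ[f] p := rfl

theorem repr_dt (d : Derivation f L L) {ι : Type*} (b : Basis ι f P) (v : L ⊗[f] P) (i : ι) :
    (b.baseChange L).repr (dt P d v) i = d ((b.baseChange L).repr v i) := by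
  induction v using TensorProduct.induction_on with
  | zero => simp
  | add x y hx hy => rw [map_add, map_add, Finsupp.add_apply, hx, hy, map_add, Finsupp.add_apply,
      map_add]
  | tmul a p =>
    rw [dt_tmul, Basis.baseChange_repr_tmul, Basis.baseChange_repr_tmul, d.map_smul]

theorem eq_tmul_of_dt [CharZero f]
    (hL : ∀ x : L, IsAlgebraic f x → x ∈ (algebraMap f L).range) {v : L ⊗[f] P}
    (hv : ∀ d : Derivation f L L, dt P d v = 0) : ∃ p : P, v = 1 ⊗ₜ[f] p := by
  let b := Basis.ofVectorSpace f P
  have h1 : ∀ i, (b.baseChange L).repr v i ∈ (algebraMap f L).range := by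
    intro i
    apply mem_range_of_derivation hL
    intro d
    rw [← repr_dt, hv d]
    simp
  choose c hc using h1
  refine ⟨∑ i ∈ ((b.baseChange L).repr v).support, c i • b i, ?_⟩
  have h2 := (b.baseChange L).linearCombination_repr v
  rw [Finsupp.linearCombination_apply, Finsupp.sum] at h2
  rw [← h2, tmul_sum]
  refine Finset.sum_congr ?_ fun i _ => ?_
  · rw [h2]
  · rw [← hc i, Basis.baseChange_apply, TensorProduct.smul_tmul', smul_eq_mul, mul_one,
      ← smul_tmul, Algebra.smul_def, mul_one]

theorem simple [CharZero f]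
    (hL : ∀ x : L, IsAlgebraic f x → x ∈ (algebraMap f L).range) (I : Ideal (L ⊗[f] P))
    (hI : I ≠ ⊥) (hd : ∀ d : Derivation f L L, ∀ v ∈ I, dt P d v ∈ I) : I = ⊤ := by
  classical
  let b := Basis.ofVectorSpace f P
  let B := b.baseChange L
  obtain ⟨v0, hv0, hv0'⟩ := Submodule.exists_mem_ne_zero_of_ne_bot hI
  have hex : ∃ n : ℕ, ∃ v ∈ I, v ≠ 0 ∧ (B.repr v).support.card = n := ⟨_, v0, hv0, hv0', rfl⟩
  obtain ⟨v, hv, hv', hvn⟩ := Nat.find_spec hex
  have hmin : ∀ w ∈ I, w ≠ 0 → (B.repr v).support.card ≤ (B.repr w).support.card := by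
    intro w hw hw'
    rw [hvn]
    exact Nat.find_min' hex ⟨w, hw, hw', rfl⟩
  have hne : B.repr v ≠ 0 := fun h => hv' (B.repr.map_eq_zero_iff.1 h)
  obtain ⟨i0, hi0⟩ := Finsupp.support_nonempty_iff.2 hne
  have hc : B.repr v i0 ≠ 0 := Finsupp.mem_support_iff.1 hi0
  set u : L ⊗[f] P := (B.repr v i0)⁻¹ • v with hu
  have huI : u ∈ I := by
    have : u = ((B.repr v i0)⁻¹ ⊗ₜ[f] (1 : P)) * v := by
      rw [hu, Algebra.smul_def]; rfl
    rw [this]
    exact I.mul_mem_left _ hv
  have hur : ∀ i, B.repr u i = (B.repr v i0)⁻¹ * B.repr v i := by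
    intro i
    rw [hu, map_smul, Finsupp.smul_apply, smul_eq_mul]
  have hu0 : u ≠ 0 := by
    intro h
    have := hur i0
    rw [h, inv_mul_cancel₀ hc] at this
    simp at this
  have hdu : ∀ d : Derivation f L L, dt P d u = 0 := by
    intro d
    by_contra hne'
    have h1 := hmin _ (hd d u huI) hne'
    have h2 : (B.repr (dt P d u)).support ⊆ (B.repr v).support.erase i0 := by
      intro i hi
      rw [Finsupp.mem_support_iff, repr_dt] at hi
      rw [Finset.mem_erase, Finsupp.mem_support_iff]
      constructor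
      · rintro rfl
        apply hi
        have := hur i
        rw [inv_mul_cancel₀ hc] at this
        change d (B.repr u i) = 0
        rw [this]
        exact d.map_one_eq_zero
      · intro h0
        apply hi
        change d (B.repr u i) = 0
        rw [hur, h0, mul_zero, map_zero]
    have h3 := Finset.card_le_card h2
    rw [Finset.card_erase_of_mem hi0] at h3
    have h4 : 0 < (B.repr v).support.card := Finset.card_pos.2 ⟨i0, hi0⟩
    omega
  obtain ⟨p, hp⟩ := eq_tmul_of_dt hL hdu
  have hp0 : p ≠ 0 := by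
    rintro rfl
    exact hu0 (by rw [hp, tmul_zero])
  rw [Ideal.eq_top_iff_one]
  have : (1 : L ⊗[f] P) = (1 ⊗ₜ[f] p⁻¹) * u := by
    rw [hp, Algebra.TensorProduct.tmul_mul_tmul, one_mul, inv_mul_cancel₀ hp0]
    rfl
  rw [this]
  exact I.mul_mem_left _ huI

/-- `L ⊗[f] P` is a domain. -/
theorem isDomain_tensor [CharZero f]
    (hL : ∀ x : L, IsAlgebraic f x → x ∈ (algebraMap f L).range) : IsDomain (L ⊗[f] P) := by
  classical
  have hnt : Nontrivial (L ⊗[f] P) := inferInstance
  -- non-nilpotent elements are regular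
  have h1 : ∀ a : L ⊗[f] P, ¬ IsNilpotent a → ∀ c, a * c = 0 → c = 0 := by
    intro a ha c hc
    let I : Ideal (L ⊗[f] P) :=
      { carrier := {b | ∃ n : ℕ, a ^ n * b = 0}
        add_mem' := by
          rintro x y ⟨n, hn⟩ ⟨m, hm⟩
          refine ⟨n + m, ?_⟩
          rw [mul_add, pow_add, mul_assoc, mul_assoc, mul_left_comm, hn, hm]
          simp
        zero_mem' := ⟨0, by simp⟩
        smul_mem' := by
          rintro r x ⟨n, hn⟩
          refine ⟨n, ?_⟩
          rw [smul_eq_mul, mul_left_comm, hn, mul_zero] }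
    have hI : I = ⊥ := by
      by_contra hne
      have h2 := simple hL I hne (by
        rintro d v ⟨n, hn⟩
        refine ⟨n + 1, ?_⟩
        have h3 := congrArg (dt P d) hn
        rw [Derivation.leibniz, Derivation.leibniz_pow, map_zero] at h3
        have h4 : a ^ (n + 1) * dt P d v = a * (a ^ n * dt P d v) := by ring
        rw [h4]
        have h5 : a ^ n * dt P d v = - (v * (n • a ^ (n - 1) * dt P d a)) := by
          have : a ^ n • dt P d v + v • (n • a ^ (n - 1) • dt P d a)
              = a ^ n * dt P d v + v * (n • a ^ (n - 1) * dt P d a) := by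
            simp only [smul_eq_mul, nsmul_eq_mul, mul_assoc]
          rw [this] at h3
          exact eq_neg_of_add_eq_zero_left h3
        rw [h5]
        rcases n with _ | n
        · simp
        · have : a * -(v * ((n + 1) • a ^ (n + 1 - 1) * dt P d a))
              = - ((n + 1 : ℕ) • (a ^ (n + 1) * v) * dt P d a) := by
            simp only [nsmul_eq_mul, Nat.add_sub_cancel]
            ring
          rw [this, hn]
          simp)
      rw [Ideal.eq_top_iff_one] at h2
      obtain ⟨n, hn⟩ := h2
      exact ha ⟨n, by simpa using hn⟩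
    have : c ∈ I := ⟨1, by rw [pow_one]; exact hc⟩
    rw [hI] at this
    exact this
  -- reduced
  have h2 : nilradical (L ⊗[f] P) = ⊥ := by
    by_contra hne
    have h3 := simple hL _ hne (by
      intro d v hv
      rw [mem_nilradical] at hv ⊢
      by_contra hnil
      by_cases hv0 : v = 0
      · apply hnil
        rw [hv0, map_zero]
        exact IsNilpotent.zero
      have hspec := Nat.find_spec hv
      have hmin : ∀ m, m < Nat.find hv → v ^ m ≠ 0 := fun m hm => Nat.find_min hv hm
      set n := Nat.find hv with hn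
      have hn0 : n ≠ 0 := by
        intro h0
        rw [h0, pow_zero] at hspec
        exact one_ne_zero hspec
      have h4 := congrArg (dt P d) hspec
      rw [Derivation.leibniz_pow, map_zero] at h4
      have h5 : dt P d v * (n • v ^ (n - 1)) = 0 := by
        rw [← h4]
        simp only [smul_eq_mul, nsmul_eq_mul]
        ring
      have h6 := h1 _ hnil _ h5
      have h7 : ((n : f)) • v ^ (n - 1) = 0 := by
        rw [Nat.cast_smul_eq_nsmul]
        exact h6
      rw [smul_eq_zero] at h7
      rcases h7 with h7 | h7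
      · exact hn0 (by exact_mod_cast h7)
      · exact hmin (n - 1) (by omega) h7)
    rw [Ideal.eq_top_iff_one, mem_nilradical] at h3
    obtain ⟨n, hn⟩ := h3
    rw [one_pow] at hn
    exact one_ne_zero hn
  have h3 : NoZeroDivisors (L ⊗[f] P) := by
    refine ⟨fun {a c} hac => ?_⟩
    by_cases ha : IsNilpotent a
    · left
      have : a ∈ nilradical (L ⊗[f] P) := ha
      rw [h2] at this
      exact this
    · right
      exact h1 a ha c hac
  exact NoZeroDivisors.to_isDomain _

/-- `P` is algebraically closed in the fraction field of `L ⊗[f] P`. -/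
theorem algClosed_tensor [CharZero f]
    (hL : ∀ x : L, IsAlgebraic f x → x ∈ (algebraMap f L).range)
    {E : Type*} [Field E] [Algebra (L ⊗[f] P) E] [IsFractionRing (L ⊗[f] P) E] {α : E}
    {q : P[X]} (hq : q ≠ 0)
    (hα : q.eval₂ ((algebraMap (L ⊗[f] P) E).comp
      (Algebra.TensorProduct.includeRight : P →ₐ[f] L ⊗[f] P).toRingHom) α = 0) :
    ∃ p : P, α = algebraMap (L ⊗[f] P) E (1 ⊗ₜ[f] p) := by
  classical
  let _ : Algebra f E := ((algebraMap (L ⊗[f] P) E).comp (algebraMap f (L ⊗[f] P))).toAlgebra
  have : IsScalarTower f (L ⊗[f] P) E := IsScalarTower.of_algebraMap_eq (fun _ => rfl)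
  have : CharZero E := charZero_of_injective_algebraMap (algebraMap f E).injective
  have hinj : Function.Injective (algebraMap (L ⊗[f] P) E) := IsFractionRing.injective _ _
  let j : P →ₐ[f] E := (IsScalarTower.toAlgHom f (L ⊗[f] P) E).comp
    (Algebra.TensorProduct.includeRight : P →ₐ[f] L ⊗[f] P)
  have hj : ∀ p : P, j p = algebraMap (L ⊗[f] P) E (1 ⊗ₜ[f] p) := fun p => rfl
  have hjinj : Function.Injective j := (j : P →+* E).injective
  let A : Subalgebra f E := j.range
  have hαA : IsAlgebraic A α := by
    let e : P →+* A := j.rangeRestrict.toRingHom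
    have he : Function.Injective e := fun x y hxy => hjinj (congrArg Subtype.val hxy)
    refine ⟨q.map e, (Polynomial.map_ne_zero_iff he).2 hq, ?_⟩
    rw [aeval_def, eval₂_map]
    exact hα
  -- extended derivations
  have hD : ∀ d : Derivation f L L, ∃ D : Derivation f E E,
      ∀ r, D (algebraMap (L ⊗[f] P) E r) = algebraMap (L ⊗[f] P) E (dt P d r) := by
    intro d
    have : Algebra.FormallyEtale (L ⊗[f] P) E := .of_isLocalization (nonZeroDivisors _)
    let d' : Derivation f (L ⊗[f] P) E := (Algebra.linearMap (L ⊗[f] P) E).compDer (dt P d)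
    obtain ⟨D, hD⟩ := exists_derivation_extension d'
    exact ⟨D, hD⟩
  have hDα : ∀ (d : Derivation f L L) (D : Derivation f E E),
      (∀ r, D (algebraMap (L ⊗[f] P) E r) = algebraMap (L ⊗[f] P) E (dt P d r)) → D α = 0 := by
    intro d D hDd
    apply derivation_eq_zero_of_isAlgebraic D A _ hαA
    rintro a ⟨p, rfl⟩
    change D (j p) = 0
    rw [hj, hDd, dt_tmul, Derivation.map_one_eq_zero, zero_tmul, map_zero]
  let I : Ideal (L ⊗[f] P) :=
    { carrier := {v | ∃ w : L ⊗[f] P, α * algebraMap _ E v = algebraMap _ E w}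
      add_mem' := by
        rintro x y ⟨w, hw⟩ ⟨z, hz⟩
        exact ⟨w + z, by rw [map_add, mul_add, hw, hz, map_add]⟩
      zero_mem' := ⟨0, by simp⟩
      smul_mem' := by
        rintro r x ⟨w, hw⟩
        exact ⟨r * w, by rw [smul_eq_mul, map_mul, mul_left_comm, hw, map_mul]⟩ }
  have hI : I ≠ ⊥ := by
    obtain ⟨x, y, hy, hxy⟩ := IsFractionRing.div_surjective (A := L ⊗[f] P) α
    have hy0 : algebraMap (L ⊗[f] P) E y ≠ 0 := by
      intro h
      have h2 : y = 0 := hinj (by rw [h, map_zero])
      exact nonZeroDivisors.ne_zero hy h2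
    have : y ∈ I := ⟨x, by rw [← hxy, div_mul_cancel₀ _ hy0]⟩
    intro hbot
    rw [hbot] at this
    exact nonZeroDivisors.ne_zero hy this
  have hItop : I = ⊤ := by
    apply simple hL I hI
    rintro d v ⟨w, hw⟩
    obtain ⟨D, hDd⟩ := hD d
    refine ⟨dt P d w, ?_⟩
    rw [← hDd, ← hDd, ← hw, Derivation.leibniz, hDα d D hDd]
    simp
  rw [Ideal.eq_top_iff_one] at hItop
  obtain ⟨w, hw⟩ := hItop
  rw [map_one, mul_one] at hw
  have hdw : ∀ d : Derivation f L L, dt P d w = 0 := by
    intro d
    obtain ⟨D, hDd⟩ := hD d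
    apply hinj
    rw [← hDd, ← hw, hDα d D hDd, map_zero]
  obtain ⟨p, hp⟩ := eq_tmul_of_dt hL hdw
  exact ⟨p, by rw [hw, hp]⟩

end Pool.Agent.Helper49.Div
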